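import Pool.Agent.Q130.SA.GirthThm

set_option autoImplicit false

/-!
# Strong arboricity and arboricity of graphs of large girth

A graph that is the union of `k ≥ 2` edge-disjoint spanning trees has arboricity `k` but strong
arboricity larger than `k`, and there are such graphs of arbitrarily large girth.
-/

namespace Pool.Agent.Results.MP_8cd00c_co.LargeGirth

open Q130.SA

/-- **Theorem.** For every `k ≥ 2` and every `g` there is a finite simple graph with arboricity
exactly `k`, girth at least `g` and strong arboricity larger than `k`. -/
theorem result (k g : ℕ) (hk : 2 ≤ k) : ∃ (n : ℕ) (G : SimpleGraph (Fin n)),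
    arb G = k ∧ (g : ℕ∞) ≤ G.egirth ∧ arb G < zeta G := by
  obtain ⟨n, G, h1, h2, h3⟩ := large_girth k g hk
  exact ⟨n, G, h1, h2, by rw [h1]; exact h3⟩

end Pool.Agent.Results.MP_8cd00c_co.LargeGirth
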